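import Pool.Agent.H99.ADJ.Fin0

/-! # Project ADJ, module RAD: the one-point function is radial and monotone -/

set_option autoImplicit false

open MeasureTheory ProbabilityTheory Set Filter Topology
open scoped NNReal ENNReal NNRat

namespace Pool.ADJ

private theorem notMem_of_linkedInf {K : Set Pl} {z : Pl} (h : LinkedInf K z) : z ∉ K := by
  obtain ⟨y, hy, _, hl⟩ := h
  rcases Relation.ReflTransGen.cases_head hl with h1 | ⟨w, h1, _⟩
  · rw [h1]; exact hy
  · exact h1.1

private theorem rot0 (θ : ℝ) (x : Pl) : rot θ x 0 = Real.cos θ * x 0 - Real.sin θ * x 1 := rfl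

private theorem rot1 (θ : ℝ) (x : Pl) : rot θ x 1 = Real.sin θ * x 0 + Real.cos θ * x 1 := rfl

private theorem rot_rot (θ : ℝ) (x : Pl) : rot (-θ) (rot θ x) = x := by
  have h := Real.sin_sq_add_cos_sq θ
  funext i
  fin_cases i
  · simp only [rot0, rot1, Real.cos_neg, Real.sin_neg, Fin.zero_eta]
    linear_combination x 0 * h
  · simp only [rot0, rot1, Real.cos_neg, Real.sin_neg, Fin.mk_one]
    linear_combination x 1 * h

private theorem continuous_rot (θ : ℝ) : Continuous (rot θ) := by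
  refine continuous_pi fun i => ?_
  fin_cases i
  · simp only [rot0, Fin.zero_eta]
    fun_prop
  · simp only [rot1, Fin.mk_one]
    fun_prop

/-- the rotation as a homeomorphism -/
private noncomputable def rotH (θ : ℝ) : Pl ≃ₜ Pl where
  toFun := rot θ
  invFun := rot (-θ)
  left_inv := rot_rot θ
  right_inv x := by
    have h := rot_rot (-θ) x
    rwa [neg_neg] at h
  continuous_toFun := continuous_rot θ
  continuous_invFun := continuous_rot (-θ)

private theorem norm_rot_le (θ : ℝ) (x : Pl) : ‖rot θ x‖ ≤ 2 * ‖x‖ := by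
  have h0 : |x 0| ≤ ‖x‖ := norm_le_pi_norm x 0
  have h1 : |x 1| ≤ ‖x‖ := norm_le_pi_norm x 1
  have hc : |Real.cos θ| ≤ 1 := Real.abs_cos_le_one θ
  have hs : |Real.sin θ| ≤ 1 := Real.abs_sin_le_one θ
  have hm : ∀ a b : ℝ, |a| ≤ 1 → |b| ≤ ‖x‖ → |a * b| ≤ ‖x‖ := by
    intro a b ha hb
    rw [abs_mul]
    calc |a| * |b| ≤ 1 * ‖x‖ := mul_le_mul ha hb (abs_nonneg _) zero_le_one
      _ = ‖x‖ := one_mul _
  refine (pi_norm_le_iff_of_nonneg (by positivity)).2 fun i => ?_
  fin_cases i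
  · simp only [rot0, Fin.zero_eta, Real.norm_eq_abs]
    have e1 := hm _ _ hc h0
    have e2 := hm _ _ hs h1
    have := abs_sub (Real.cos θ * x 0) (Real.sin θ * x 1)
    linarith
  · simp only [rot1, Fin.mk_one, Real.norm_eq_abs]
    have e1 := hm _ _ hs h0
    have e2 := hm _ _ hc h1
    have := abs_add_le (Real.sin θ * x 0) (Real.cos θ * x 1)
    linarith

private theorem bounded_rot (θ : ℝ) (A : Set Pl) (hA : Bornology.IsBounded A) :
    Bornology.IsBounded (rot θ '' A) := by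
  obtain ⟨R, hR⟩ := hA.exists_norm_le
  refine isBounded_iff_forall_norm_le.2 ⟨2 * R, ?_⟩
  rintro y ⟨x, hx, rfl⟩
  exact (norm_rot_le θ x).trans (by linarith [hR x hx])

private theorem linkedInf_rot (h_INV : S_INV) (θ : ℝ) (K : Set Pl) (x : Pl) :
    LinkedInf (rot θ '' K) (rot θ x) ↔ LinkedInf K x :=
  h_INV (rotH θ) (bounded_rot θ) (bounded_rot (-θ)) K x

private theorem exists_rot {x y : Pl} (hx : x ≠ 0) (hxy : x 0 ^ 2 + x 1 ^ 2 ≤ y 0 ^ 2 + y 1 ^ 2) :
    ∃ ρ θ : ℝ, 1 ≤ ρ ∧ y = rot θ (ρ • x) := by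
  have hx2 : 0 < x 0 ^ 2 + x 1 ^ 2 := by
    by_contra hcon
    have h0 : x 0 = 0 := by nlinarith [sq_nonneg (x 0), sq_nonneg (x 1)]
    have h1 : x 1 = 0 := by nlinarith [sq_nonneg (x 0), sq_nonneg (x 1)]
    apply hx
    funext i
    fin_cases i
    · exact h0
    · exact h1
  set c : ℂ := ⟨x 0, x 1⟩ with hc
  set d : ℂ := ⟨y 0, y 1⟩ with hd
  have hnc : ‖c‖ ^ 2 = x 0 ^ 2 + x 1 ^ 2 := by
    rw [← Complex.normSq_eq_norm_sq, Complex.normSq_apply]
    simp only [hc]; ring
  have hnd : ‖d‖ ^ 2 = y 0 ^ 2 + y 1 ^ 2 := by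
    rw [← Complex.normSq_eq_norm_sq, Complex.normSq_apply]
    simp only [hd]; ring
  have hc0 : c ≠ 0 := by
    intro h
    rw [h, norm_zero] at hnc
    simp only [ne_eq, OfNat.ofNat_ne_zero, not_false_eq_true, zero_pow] at hnc
    linarith
  have hcp : 0 < ‖c‖ := norm_pos_iff.2 hc0
  refine ⟨‖d / c‖, Complex.arg (d / c), ?_, ?_⟩
  · rw [norm_div, one_le_div hcp]
    have : ‖c‖ ^ 2 ≤ ‖d‖ ^ 2 := by rw [hnc, hnd]; exact hxy
    exact (sq_le_sq₀ hcp.le (norm_nonneg _)).1 this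
  · have key : d = (‖d / c‖ : ℂ) * (Complex.cos (Complex.arg (d / c)) +
        Complex.sin (Complex.arg (d / c)) * Complex.I) * c := by
      rw [Complex.norm_mul_cos_add_sin_mul_I]
      field_simp
    have hre := congrArg Complex.re key
    have him := congrArg Complex.im key
    rw [← Complex.ofReal_cos, ← Complex.ofReal_sin] at hre him
    simp only [Complex.mul_re, Complex.mul_im, Complex.add_re, Complex.add_im, Complex.ofReal_re,
      Complex.ofReal_im, Complex.I_re, Complex.I_im] at hre him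
    have c1 : c.re = x 0 := rfl
    have c2 : c.im = x 1 := rfl
    have d1 : d.re = y 0 := rfl
    have d2 : d.im = y 1 := rfl
    rw [d1, c1, c2] at hre
    rw [d2, c1, c2] at him
    funext i
    fin_cases i
    · simp only [rot0, Fin.zero_eta, Pi.smul_apply, smul_eq_mul]
      rw [hre]; ring
    · simp only [rot1, Fin.mk_one, Pi.smul_apply, smul_eq_mul]
      rw [him]; ring

theorem rad_thm (h_ROT : S_ROT) (h_INV : S_INV) (h_HLW : S_HLW) (h_MKV : S_MKV) : S_RAD := by
  intro Ω _ μ B hB x y hxy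
  by_cases hx : x = 0
  · have : {ω | LinkedInf (tr B ω 0 1) x} = ∅ := by
      rw [Set.eq_empty_iff_forall_notMem]
      intro ω hω
      apply notMem_of_linkedInf hω
      rw [hx]
      exact ⟨0, ⟨le_rfl, zero_le_one⟩, hB.zero ω⟩
    rw [this, measure_empty]
    exact zero_le
  · obtain ⟨ρ, θ, hρ, hy⟩ := exists_rot hx hxy
    have hρ0 : 0 < ρ := lt_of_lt_of_le one_pos hρ
    have h1 := h_HLW Ω μ B Ω μ _ hB (h_ROT Ω μ B hB θ) y
    have h2 : {ω | LinkedInf (tr (fun t ω => rot θ (B t ω)) ω 0 1) y} =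
        {ω | LinkedInf (tr B ω 0 1) (ρ • x)} := by
      ext ω
      simp only [Set.mem_ofPred_eq]
      rw [hy, ← linkedInf_rot h_INV θ (tr B ω 0 1) (ρ • x)]
      have e : tr (fun t ω => rot θ (B t ω)) ω 0 1 = rot θ '' tr B ω 0 1 := by
        unfold tr
        rw [image_image]
      rw [e]
    rw [h1, h2]
    have hc : (0 : ℝ) < (ρ⁻¹) ^ 2 := by positivity
    have h3 := scal h_MKV hB hc x
    have e1 : (√((ρ⁻¹) ^ 2))⁻¹ = ρ := by
      rw [Real.sqrt_sq (by positivity), inv_inv]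
    rw [e1] at h3
    rw [← h3]
    refine measure_mono fun ω hω => ?_
    refine LinkedInf.mono (tr_mono B ω le_rfl ?_) hω
    have : ρ⁻¹ ≤ 1 := inv_le_one_of_one_le₀ hρ
    have h0 : 0 ≤ ρ⁻¹ := by positivity
    nlinarith

end Pool.ADJ
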